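import Mathlib

open Complex Polynomial
open scoped Real NumberField IntermediateField

namespace Pool.Agent.Results.MP_06877e_nt.Counterexample107

/-- `S_p(x) = ∏_{k=1}^{(p-1)/2} (x - e^{2πi k²/p})`. -/
noncomputable def S (p : ℕ) (x : ℂ) : ℂ :=
  ∏ k ∈ Finset.Icc 1 ((p - 1) / 2), (x - Complex.exp (2 * π * I * (k : ℂ) ^ 2 / (p : ℂ)))

/-- `ω = e^{2πi/3}`. -/
noncomputable def ω : ℂ := Complex.exp (2 * π * I / 3)

/-- `h(-p)`, the class number of `ℚ(√(-p)) = ℚ(i√p) ⊆ ℂ`. -/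
noncomputable def hNeg (p : ℕ) : ℕ :=
  Nat.card (ClassGroup (𝓞 (ℚ⟮(I * (Real.sqrt p : ℂ))⟯)))

/-- `N_p = |{1 ≤ k < p/3 : (k/p) = 1}|`. -/
def N (p : ℕ) [Fact p.Prime] : ℕ :=
  ((Finset.Ico 1 p).filter (fun k : ℕ => 3 * k < p ∧ legendreSym p k = 1)).card

/-- `(x, y)` is the least solution in positive integers of `3x² + 4(p/3) = p y²`. -/
def IsLeastSol (p x y : ℕ) : Prop :=
  (0 < x ∧ 0 < y ∧ 3 * (x : ℤ) ^ 2 + 4 * legendreSym 3 p = p * (y : ℤ) ^ 2) ∧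
    ∀ x' y' : ℕ, 0 < x' → 0 < y' → 3 * (x' : ℤ) ^ 2 + 4 * legendreSym 3 p = p * (y' : ℤ) ^ 2 →
      x ≤ x' ∧ y ≤ y'

/-- `σ_p = (-1)^{(h(-p)+1)/2} (p/3)`. -/
noncomputable def σ (p : ℕ) : ℂ := (-1) ^ ((hNeg p + 1) / 2) * (legendreSym 3 p : ℂ)

/-- `c_p = i` if `p ≡ 7 (mod 12)` and `c_p = (-1)^{N_p} i ω` otherwise (`p ≡ 11 (mod 12)`). -/
noncomputable def c (p : ℕ) [Fact p.Prime] : ℂ :=
  if p % 12 = 7 then I else (-1) ^ N p * I * ω

/-- `d_p = i` if `p ≡ 7 (mod 12)` and `d_p = (-1)^{N_p} i ω̄` otherwise (`p ≡ 11 (mod 12)`). -/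
noncomputable def d (p : ℕ) [Fact p.Prime] : ℂ :=
  if p % 12 = 7 then I else (-1) ^ N p * I * (starRingEnd ℂ) ω

/-- A primitive `321`-st root of unity. -/
noncomputable def z : ℂ := Complex.exp (2 * π * I / (321 : ℕ))

theorem z_prim : IsPrimitiveRoot z 321 := Complex.isPrimitiveRoot_exp 321 (by norm_num)

theorem z_pow (m : ℕ) : z ^ m = Complex.exp (2 * π * I * (m : ℂ) / 321) := by
  unfold z
  rw [← Complex.exp_nat_mul]
  congr 1
  push_cast
  ring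

theorem omega_eq : ω = z ^ 107 := by
  rw [z_pow]
  unfold ω
  congr 1
  push_cast
  ring

theorem conj_z : (starRingEnd ℂ) z = z ^ 320 := by
  have h1 : ‖z‖ = 1 := z_prim.norm'_eq_one (by norm_num)
  have h2 : z * (starRingEnd ℂ) z = 1 := by
    rw [Complex.mul_conj, Complex.normSq_eq_norm_sq, h1]; norm_num
  have h3 : z * z ^ 320 = 1 := by rw [← pow_succ']; exact z_prim.pow_eq_one
  have hz : z ≠ 0 := z_prim.ne_zero (by norm_num)
  exact mul_left_cancel₀ hz (h2.trans h3.symm)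

theorem S_eq (x : ℂ) : S 107 x = ∏ k ∈ Finset.Icc 1 53, (x - z ^ (3 * k ^ 2)) := by
  unfold S
  refine Finset.prod_congr (by norm_num) fun k _ => ?_
  rw [z_pow]
  congr 2
  push_cast
  ring

/-- The integer polynomial whose value at `z` is `|S_107(z^a)|²`. -/
noncomputable def V (a : ℕ) : ℤ[X] :=
  ∏ k ∈ Finset.Icc 1 53, ((X ^ a - X ^ (3 * k ^ 2)) * (X ^ (320 * a) - X ^ (320 * (3 * k ^ 2))))

theorem aeval_V {R : Type*} [CommRing R] (a : ℕ) (g : R) :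
    aeval g (V a) = ∏ k ∈ Finset.Icc 1 53,
      ((g ^ a - g ^ (3 * k ^ 2)) * (g ^ (320 * a) - g ^ (320 * (3 * k ^ 2)))) := by
  unfold V
  simp only [map_prod, map_mul, map_sub, map_pow, aeval_X]

theorem V_z (a : ℕ) : aeval z (V a) = S 107 (z ^ a) * (starRingEnd ℂ) (S 107 (z ^ a)) := by
  rw [aeval_V, S_eq, map_prod, ← Finset.prod_mul_distrib]
  refine Finset.prod_congr rfl fun k _ => ?_
  rw [map_sub, map_pow, map_pow, conj_z, ← pow_mul, ← pow_mul]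

instance fact643 : Fact (Nat.Prime 643) := ⟨by norm_num⟩

theorem g_prim : IsPrimitiveRoot (7 : ZMod 643) 321 := by
  refine IsPrimitiveRoot.mk_of_lt _ (by norm_num) (by decide +kernel) ?_
  have h : ∀ l < 321, 0 < l → (7 : ZMod 643) ^ l ≠ 1 := by decide +kernel
  intro l h0 hl
  exact h l hl h0

theorem transfer (P : ℤ[X]) (h : aeval z P = 0) : aeval (7 : ZMod 643) P = 0 := by
  have hint : IsIntegral ℤ z := z_prim.isIntegral (by norm_num)
  obtain ⟨Q, rfl⟩ := minpoly.isIntegrallyClosed_dvd hint h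
  rw [← cyclotomic_eq_minpoly z_prim (by norm_num), map_mul]
  have h0 : aeval (7 : ZMod 643) (cyclotomic 321 ℤ) = 0 := by
    have := g_prim.isRoot_cyclotomic (by norm_num)
    rw [IsRoot.def, ← map_cyclotomic_int] at this
    rw [← eval_map_algebraMap]
    exact this
  rw [h0, zero_mul]

theorem pow_red (m : ℕ) : (7 : ZMod 643) ^ m = 7 ^ (m % 321) := by
  conv_lhs => rw [← Nat.div_add_mod m 321, pow_add, pow_mul, g_prim.pow_eq_one, one_pow, one_mul]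

theorem key (a : ℕ) (ha : a = 107 ∨ a = 214) (v : ℂ)
    (hv : v = S 107 (z ^ a) * (starRingEnd ℂ) (S 107 (z ^ a))) : v ^ 2 - 430 * v + 1 ≠ 0 := by
  intro h
  have h1 : aeval z (V a ^ 2 - 430 * V a + 1) = 0 := by
    rw [map_add, map_sub, map_mul, map_pow, map_one, V_z, ← hv, ← h]
    simp only [map_ofNat]
  have h2 := transfer _ h1
  rw [map_add, map_sub, map_mul, map_pow, map_one, aeval_V] at h2
  simp only [map_ofNat] at h2
  have h3 : ∀ k : ℕ, ((7 : ZMod 643) ^ a - 7 ^ (3 * k ^ 2)) *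
      ((7 : ZMod 643) ^ (320 * a) - 7 ^ (320 * (3 * k ^ 2))) =
      ((7 : ZMod 643) ^ (a % 321) - 7 ^ ((3 * k ^ 2) % 321)) *
      ((7 : ZMod 643) ^ ((320 * a) % 321) - 7 ^ ((320 * (3 * k ^ 2)) % 321)) := by
    intro k
    rw [← pow_red, ← pow_red, ← pow_red, ← pow_red]
  simp only [h3] at h2
  revert h2
  rcases ha with rfl | rfl <;> decide +kernel

theorem leg3 : legendreSym 3 ((107 : ℕ) : ℤ) = -1 := by norm_num

theorem least : IsLeastSol 107 12 2 := by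
  unfold IsLeastSol
  rw [leg3]
  refine ⟨⟨by norm_num, by norm_num, by norm_num⟩, fun x y hx hy h => ?_⟩
  have hy2 : 2 ≤ y := by
    by_contra hlt
    have : y = 1 := by omega
    subst this
    have h37 : (x : ℤ) ^ 2 = 37 := by push_cast at h; linarith
    have hx7 : x < 7 := by
      by_contra hc
      have : (7 : ℤ) ≤ x := by exact_mod_cast not_lt.mp hc
      nlinarith
    interval_cases x <;> norm_num at h37
  refine ⟨?_, hy2⟩
  by_contra hc
  have h11 : (x : ℤ) ≤ 11 := by exact_mod_cast Nat.lt_succ_iff.mp (not_le.mp hc)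
  have h2 : (2 : ℤ) ≤ y := by exact_mod_cast hy2
  have h0 : (0 : ℤ) ≤ x := by positivity
  push_cast at h
  nlinarith

theorem omega_mul_conj : ω * (starRingEnd ℂ) ω = 1 := by
  rw [omega_eq, map_pow, conj_z, ← mul_pow, ← pow_succ', z_prim.pow_eq_one, one_pow]

theorem sigma_unit : σ 107 * (starRingEnd ℂ) (σ 107) = 1 := by
  unfold σ
  rw [leg3]
  simp only [map_mul, map_pow, map_neg, map_one, Int.cast_neg, Int.cast_one]
  have : ((-1 : ℂ) ^ ((hNeg 107 + 1) / 2)) ^ 2 = 1 := by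
    rw [← pow_mul, mul_comm, pow_mul]; norm_num
  linear_combination this

instance fact107 : Fact (Nat.Prime 107) := ⟨by norm_num⟩

theorem c_unit : c 107 * (starRingEnd ℂ) (c 107) = 1 := by
  unfold c
  rw [if_neg (by norm_num)]
  simp only [map_mul, map_pow, map_neg, map_one, Complex.conj_I]
  have h1 : ((-1 : ℂ) ^ (N 107)) ^ 2 = 1 := by
    rw [← pow_mul, mul_comm, pow_mul]; norm_num
  have h2 := omega_mul_conj
  have h3 : I ^ 2 = -1 := Complex.I_sq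
  linear_combination (-I ^ 2 * (ω * (starRingEnd ℂ) ω)) * h1 - (ω * (starRingEnd ℂ) ω) * h3 + h2

theorem d_unit : d 107 * (starRingEnd ℂ) (d 107) = 1 := by
  unfold d
  rw [if_neg (by norm_num)]
  simp only [map_mul, map_pow, map_neg, map_one, Complex.conj_I, Complex.conj_conj]
  have h1 : ((-1 : ℂ) ^ (N 107)) ^ 2 = 1 := by
    rw [← pow_mul, mul_comm, pow_mul]; norm_num
  have h2 := omega_mul_conj
  have h3 : I ^ 2 = -1 := Complex.I_sq
  linear_combination (-I ^ 2 * (ω * (starRingEnd ℂ) ω)) * h1 - (ω * (starRingEnd ℂ) ω) * h3 + h2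

theorem conj_omega : (starRingEnd ℂ) ω = z ^ 214 := by
  rw [omega_eq, map_pow, conj_z, ← pow_mul]
  have : 320 * 107 = 321 * 106 + 214 := by norm_num
  rw [this, pow_add, pow_mul, z_prim.pow_eq_one, one_pow, one_mul]

theorem unit_eq (e : ℂ) (he : e ^ 2 = 1) (r : ℂ)
    (hr : r = (1 / 2 : ℂ) * (((12 : ℕ) : ℂ) * (Real.sqrt 3 : ℂ) +
      e * (((2 : ℕ) : ℂ) * (Real.sqrt (107 : ℕ) : ℂ)))) :
    (r ^ 2) ^ 2 - 430 * r ^ 2 + 1 = 0 := by
  have h3 : ((Real.sqrt 3 : ℝ) : ℂ) ^ 2 = 3 := by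
    rw [← Complex.ofReal_pow, Real.sq_sqrt (by norm_num)]; norm_num
  have h107 : ((Real.sqrt (107 : ℕ) : ℝ) : ℂ) ^ 2 = 107 := by
    rw [← Complex.ofReal_pow, Real.sq_sqrt (by norm_num)]; norm_num
  set a : ℂ := ((Real.sqrt 3 : ℝ) : ℂ)
  set b : ℂ := ((Real.sqrt (107 : ℕ) : ℝ) : ℂ)
  have hb : (e * b) ^ 2 = 107 := by rw [mul_pow, he, one_mul, h107]
  have hr' : r = 6 * a + e * b := by rw [hr]; push_cast; ring
  have hr2 : r ^ 2 = 215 + 12 * a * (e * b) := by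
    rw [hr']; linear_combination 36 * h3 + hb
  rw [hr2]
  linear_combination (144 * (e * b) ^ 2) * h3 + 432 * hb

/-- Both identities of Q1 fail for the prime `p = 107`. -/
theorem result : ∃ (p : ℕ) (_ : Fact p.Prime), p = 107 ∧ 3 < p ∧ p % 4 = 3 ∧
    ∃ x y : ℕ, IsLeastSol p x y ∧
      S p ω ≠ σ p * c p * ((1 / 2 : ℂ) * (x * (Real.sqrt 3 : ℂ) - y * (Real.sqrt p : ℂ))) ∧
      S p ((starRingEnd ℂ) ω) ≠
        -σ p * d p * ((1 / 2 : ℂ) * (x * (Real.sqrt 3 : ℂ) + y * (Real.sqrt p : ℂ))) := by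
  refine ⟨107, fact107, rfl, by norm_num, by norm_num, 12, 2, least, fun h => ?_, fun h => ?_⟩
  · set r : ℂ := (1 / 2 : ℂ) * (((12 : ℕ) : ℂ) * (Real.sqrt 3 : ℂ) -
      ((2 : ℕ) : ℂ) * (Real.sqrt (107 : ℕ) : ℂ)) with hr
    have hconj : (starRingEnd ℂ) r = r := by
      rw [hr]; simp [map_ofNat]
    refine key 107 (Or.inl rfl) (r ^ 2) ?_ (unit_eq (-1) (by norm_num) r (by rw [hr]; ring))
    rw [← omega_eq, h, map_mul, map_mul, hconj]
    linear_combination (-(r ^ 2) * (c 107 * (starRingEnd ℂ) (c 107))) * sigma_unit -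
      r ^ 2 * c_unit
  · set r : ℂ := (1 / 2 : ℂ) * (((12 : ℕ) : ℂ) * (Real.sqrt 3 : ℂ) +
      ((2 : ℕ) : ℂ) * (Real.sqrt (107 : ℕ) : ℂ)) with hr
    have hconj : (starRingEnd ℂ) r = r := by
      rw [hr]; simp [map_ofNat]
    refine key 214 (Or.inr rfl) (r ^ 2) ?_ (unit_eq 1 (by norm_num) r (by rw [hr]; ring))
    rw [← conj_omega, h, map_mul, map_mul, map_neg, hconj]
    linear_combination (-(r ^ 2) * (d 107 * (starRingEnd ℂ) (d 107))) * sigma_unit -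
      r ^ 2 * d_unit

end Pool.Agent.Results.MP_06877e_nt.Counterexample107
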